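import Pool.Agent.Y811.PC.Stm

set_option autoImplicit false

namespace Pool.Agent.Y331.PC

open Complex Metric Set Filter Topology Pool.Agent.H712R2 Pool.Agent.H713R2 N62a1eb23
open Pool.Agent.Y811.PC

/-- the factorisation of a function with a zero of exact size `u ^ q` -/
theorem factor {σ : ℂ → ℂ} {q : ℕ} {r : ℝ} (hr : 0 < r) (hσ : AnalyticAt ℂ σ 0)
    (h1 : ∀ u : ℂ, ‖u‖ ≤ r → ‖u‖ ^ q / 2 ≤ ‖σ u‖ ∧ ‖σ u‖ ≤ 2 * ‖u‖ ^ q) :
    ∃ h : ℂ → ℂ, AnalyticAt ℂ h 0 ∧ h 0 ≠ 0 ∧ ∀ᶠ u in 𝓝 (0 : ℂ), σ u = u ^ q * h u := by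
  have hne : ¬ ∀ᶠ u in 𝓝 (0 : ℂ), σ u = 0 := by
    intro h2
    have h3 : ∀ᶠ u in 𝓝[≠] (0 : ℂ), False := by
      have h4 : ∀ᶠ u in 𝓝[≠] (0 : ℂ), σ u = 0 := h2.filter_mono nhdsWithin_le_nhds
      have h5 : ∀ᶠ u in 𝓝[≠] (0 : ℂ), u ≠ 0 := eventually_mem_nhdsWithin
      have h6 : ∀ᶠ u in 𝓝[≠] (0 : ℂ), u ∈ closedBall (0 : ℂ) r :=
        nhdsWithin_le_nhds (closedBall_mem_nhds (0 : ℂ) hr)
      filter_upwards [h4, h5, h6] with u h4 h5 h6
      have h7 := (h1 u (by simpa using h6)).1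
      rw [h4, norm_zero] at h7
      have h8 : 0 < ‖u‖ := norm_pos_iff.2 h5
      have h9 : 0 < ‖u‖ ^ q / 2 := by positivity
      linarith
    rw [Filter.eventually_false_iff_eq_bot] at h3
    exact (NormedField.nhdsNE_neBot (0 : ℂ)).ne h3
  obtain ⟨n, h, ha, h0, heq⟩ := (hσ.exists_eventuallyEq_pow_smul_nonzero_iff).2 hne
  simp only [sub_zero, smul_eq_mul] at heq
  have hnq : n = q := by
    have hcont : Tendsto (fun u => ‖h u‖) (𝓝[≠] (0 : ℂ)) (𝓝 ‖h 0‖) :=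
      (ha.continuousAt.norm).tendsto.mono_left nhdsWithin_le_nhds
    have heq' : ∀ᶠ u in 𝓝[≠] (0 : ℂ), σ u = u ^ n * h u := heq.filter_mono nhdsWithin_le_nhds
    have h5 : ∀ᶠ u in 𝓝[≠] (0 : ℂ), u ≠ 0 := eventually_mem_nhdsWithin
    have h6 : ∀ᶠ u in 𝓝[≠] (0 : ℂ), u ∈ closedBall (0 : ℂ) r :=
      nhdsWithin_le_nhds (closedBall_mem_nhds (0 : ℂ) hr)
    have hnb : (𝓝[≠] (0 : ℂ)).NeBot := NormedField.nhdsNE_neBot (0 : ℂ)
    have hpow : ∀ k : ℕ, 0 < k → Tendsto (fun u : ℂ => ‖u‖ ^ k) (𝓝[≠] (0 : ℂ)) (𝓝 0) := by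
      intro k hk
      have h7 : ContinuousAt (fun u : ℂ => ‖u‖ ^ k) 0 := by fun_prop
      have h8 := h7.tendsto.mono_left (nhdsWithin_le_nhds (s := {(0 : ℂ)}ᶜ))
      simpa [hk.ne'] using h8
    rcases lt_trichotomy n q with h7 | h7 | h7
    · exfalso
      have h8 : ∀ᶠ u in 𝓝[≠] (0 : ℂ), ‖h u‖ ≤ 2 * ‖u‖ ^ (q - n) := by
        filter_upwards [heq', h5, h6] with u g1 g2 g3
        have g4 := (h1 u (by simpa using g3)).2
        rw [g1, norm_mul, norm_pow] at g4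
        have g5 : 0 < ‖u‖ ^ n := by
          have := norm_pos_iff.2 g2
          positivity
        have g6 : ‖u‖ ^ q = ‖u‖ ^ n * ‖u‖ ^ (q - n) := by
          rw [← pow_add]
          congr 1
          omega
        rw [g6] at g4
        have g7 : ‖u‖ ^ n * ‖h u‖ ≤ ‖u‖ ^ n * (2 * ‖u‖ ^ (q - n)) := by linarith
        exact le_of_mul_le_mul_left g7 g5
      have h9 := le_of_tendsto_of_tendsto hcont ((hpow (q - n) (by omega)).const_mul 2) h8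
      rw [mul_zero] at h9
      exact h0 (norm_le_zero_iff.1 h9)
    · exact h7
    · exfalso
      have h8 : ∀ᶠ u in 𝓝[≠] (0 : ℂ), (1 / 2 : ℝ) ≤ ‖u‖ ^ (n - q) * ‖h u‖ := by
        filter_upwards [heq', h5, h6] with u g1 g2 g3
        have g4 := (h1 u (by simpa using g3)).1
        rw [g1, norm_mul, norm_pow] at g4
        have g5 : 0 < ‖u‖ ^ q := by
          have := norm_pos_iff.2 g2
          positivity
        have g6 : ‖u‖ ^ n = ‖u‖ ^ q * ‖u‖ ^ (n - q) := by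
          rw [← pow_add]
          congr 1
          omega
        rw [g6] at g4
        have g7 : ‖u‖ ^ q * (1 / 2) ≤ ‖u‖ ^ q * (‖u‖ ^ (n - q) * ‖h u‖) := by linarith
        exact le_of_mul_le_mul_left g7 g5
      have h9 := le_of_tendsto_of_tendsto tendsto_const_nhds
        ((hpow (n - q) (by omega)).mul hcont) h8
      rw [zero_mul] at h9
      norm_num at h9
  subst hnq
  exact ⟨h, ha, h0, heq⟩

/-- the limit of the change of `1 / σ` -/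
theorem lim_change {σ h a : ℂ → ℂ} {q : ℕ} (hq : 1 ≤ q) (ha : AnalyticAt ℂ a 0)
    (hh : AnalyticAt ℂ h 0) (h0 : h 0 ≠ 0) (hσ : ∀ᶠ u in 𝓝 (0 : ℂ), σ u = u ^ q * h u) :
    Tendsto (fun u : ℂ => (σ (u + u ^ (q + 1) * a u))⁻¹ - (σ u)⁻¹) (𝓝[≠] 0)
      (𝓝 (-(q * a 0) / h 0)) := by
  set w : ℂ → ℂ := fun u => u + u ^ (q + 1) * a u with hw
  set p : ℂ → ℂ := fun u => 1 + u ^ q * a u with hp
  have hwp : ∀ u, w u = u * p u := by
    intro u
    rw [hw, hp]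
    simp only
    ring
  have hwc : ContinuousAt w 0 := by
    have := ha.continuousAt
    rw [hw]
    exact continuousAt_id.add ((continuousAt_id.pow (q + 1)).mul this)
  have hw0 : w 0 = 0 := by rw [hwp, zero_mul]
  have hwt : Tendsto w (𝓝 0) (𝓝 0) := by
    have := hwc.tendsto
    rwa [hw0] at this
  have hpc : ContinuousAt p 0 := by
    have := ha.continuousAt
    rw [hp]
    exact continuousAt_const.add ((continuousAt_id.pow q).mul this)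
  have hp0 : p 0 = 1 := by
    rw [hp]
    simp only
    rw [zero_pow (by omega), zero_mul, add_zero]
  have hσw : ∀ᶠ u in 𝓝 (0 : ℂ), σ (w u) = w u ^ q * h (w u) := hwt.eventually hσ
  -- Lipschitz bound of h
  have hlip : (fun x : ℂ × ℂ => h x.1 - h x.2) =O[𝓝 ((0 : ℂ), (0 : ℂ))] fun x => x.1 - x.2 :=
    (hh.hasStrictDerivAt).isBigO_sub
  have htw : Tendsto (fun u : ℂ => ((w u, u) : ℂ × ℂ)) (𝓝 0) (𝓝 ((0 : ℂ), (0 : ℂ))) := by
    rw [nhds_prod_eq]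
    exact hwt.prodMk tendsto_id
  have hlip2 := hlip.comp_tendsto htw
  have hsub : Tendsto (fun u : ℂ => (h (w u) - h u) / u ^ q) (𝓝[≠] 0) (𝓝 0) := by
    obtain ⟨K, hK⟩ := hlip2.bound
    rw [tendsto_zero_iff_norm_tendsto_zero]
    have h5 : ∀ᶠ u in 𝓝[≠] (0 : ℂ), u ≠ 0 := eventually_mem_nhdsWithin
    have h6 : ∀ᶠ u in 𝓝[≠] (0 : ℂ), ‖(h (w u) - h u) / u ^ q‖ ≤ K * (‖u‖ * ‖a u‖) := by
      filter_upwards [hK.filter_mono nhdsWithin_le_nhds, h5] with u g1 g2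
      simp only [Function.comp] at g1
      have g3 : w u - u = u ^ q * (u * a u) := by
        rw [hw]
        simp only
        ring
      rw [g3, norm_mul, norm_mul] at g1
      have g4 : 0 < ‖u ^ q‖ := norm_pos_iff.2 (pow_ne_zero _ g2)
      rw [norm_div, div_le_iff₀ g4]
      linarith
    have h7 : Tendsto (fun u : ℂ => K * (‖u‖ * ‖a u‖)) (𝓝[≠] 0) (𝓝 0) := by
      have c1 : ContinuousAt (fun u : ℂ => K * (‖u‖ * ‖a u‖)) 0 :=
        continuousAt_const.mul (continuousAt_id.norm.mul ha.continuousAt.norm)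
      have c2 := c1.tendsto.mono_left (nhdsWithin_le_nhds (s := {(0 : ℂ)}ᶜ))
      simpa using c2
    exact squeeze_zero' (Eventually.of_forall fun _ => norm_nonneg _) h6 h7
  have hgeo : ∀ u : ℂ, p u ^ q - 1 = u ^ q * (a u * ∑ i ∈ Finset.range q, p u ^ i) := by
    intro u
    have h1 := mul_geom_sum (p u) q
    have h2 : p u - 1 = u ^ q * a u := by
      rw [hp]
      simp only
      ring
    rw [← h1, h2]
    ring
  have hhw : Tendsto (fun u => h (w u)) (𝓝 0) (𝓝 (h 0)) := hh.continuousAt.tendsto.comp hwt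
  have hnum : Tendsto (fun u : ℂ => -((a u * ∑ i ∈ Finset.range q, p u ^ i) * h (w u) +
      (h (w u) - h u) / u ^ q)) (𝓝[≠] 0) (𝓝 (-((a 0 * q) * h 0 + 0))) := by
    refine (Tendsto.add (Tendsto.mul (Tendsto.mul ?_ ?_) ?_) hsub).neg
    · exact ha.continuousAt.tendsto.mono_left nhdsWithin_le_nhds
    · have h1 : ContinuousAt (fun u : ℂ => ∑ i ∈ Finset.range q, p u ^ i) 0 :=
        tendsto_finsetSum _ fun i _ => hpc.pow i
      have h2 := h1.tendsto.mono_left (nhdsWithin_le_nhds (s := {(0 : ℂ)}ᶜ))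
      simpa [hp0] using h2
    · exact hhw.mono_left nhdsWithin_le_nhds
  have hden : Tendsto (fun u : ℂ => h u * p u ^ q * h (w u)) (𝓝[≠] 0) (𝓝 (h 0 * h 0)) := by
    have h1 : Tendsto (fun u : ℂ => h u * p u ^ q * h (w u)) (𝓝 0) (𝓝 (h 0 * p 0 ^ q * h 0)) :=
      (hh.continuousAt.tendsto.mul (hpc.pow q).tendsto).mul hhw
    rw [hp0, one_pow, mul_one] at h1
    exact h1.mono_left nhdsWithin_le_nhds
  have hlim := hnum.div hden (mul_ne_zero h0 h0)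
  have heq : -((a 0 * q) * h 0 + 0) / (h 0 * h 0) = -(q * a 0) / h 0 := by
    field_simp
    ring
  rw [heq] at hlim
  refine hlim.congr' ?_
  have h5 : ∀ᶠ u in 𝓝[≠] (0 : ℂ), u ≠ 0 := eventually_mem_nhdsWithin
  have h6 : ∀ᶠ u in 𝓝[≠] (0 : ℂ), h u ≠ 0 :=
    (hh.continuousAt.eventually_ne h0).filter_mono nhdsWithin_le_nhds
  have h7 : ∀ᶠ u in 𝓝[≠] (0 : ℂ), h (w u) ≠ 0 :=
    (hhw.eventually_ne h0).filter_mono nhdsWithin_le_nhds
  have h8 : ∀ᶠ u in 𝓝[≠] (0 : ℂ), p u ≠ 0 :=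
    (hpc.eventually_ne (by rw [hp0]; exact one_ne_zero)).filter_mono nhdsWithin_le_nhds
  filter_upwards [h5, h6, h7, h8, hσ.filter_mono nhdsWithin_le_nhds,
    hσw.filter_mono nhdsWithin_le_nhds] with u g1 g2 g3 g4 g5 g6
  have g7 : u + u ^ (q + 1) * a u = w u := rfl
  rw [g7, g5, g6]
  have g8 : u ^ q ≠ 0 := pow_ne_zero _ g1
  have g9 : p u ^ q ≠ 0 := pow_ne_zero _ g4
  have g10 : w u ^ q = u ^ q * p u ^ q := by rw [hwp, mul_pow]
  rw [g10, Pi.div_apply, div_eq_iff (mul_ne_zero (mul_ne_zero g2 g9) g3)]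
  have g11 := hgeo u
  have g12 : p u ^ q = 1 + u ^ q * (a u * ∑ i ∈ Finset.range q, p u ^ i) := by
    linear_combination g11
  set S := a u * ∑ i ∈ Finset.range q, p u ^ i with hS
  set Q := p u ^ q with hQ
  field_simp
  rw [g12]
  ring

theorem t_B0 : S_B0 := by
  intro d m q c₀ z₀ s b ρ ε C a hPD hNF hG
  obtain ⟨ha, ha0, hgerm⟩ := hG
  have hρ := hNF.hρ
  have hε := hNF.hε
  have hC := hNF.hC
  have hc : c₀ ∈ ball c₀ ε := mem_ball_self hε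
  have hz : z₀ ∈ ball z₀ ε := mem_ball_self hε
  have hLq : Lq d m q c₀ z₀ = 1 := by
    unfold Lq
    rw [hPD.mul.pow_eq_one, inv_one]
  have han : AnalyticAt ℂ (s c₀ z₀) 0 := by
    have h1 : DifferentiableOn ℂ (fun u : ℂ => s c₀ z₀ u) univ := by
      have h2 : DifferentiableOn ℂ (fun u : ℂ => ((c₀, z₀, u) : ℂ × ℂ × ℂ)) univ := by
        fun_prop
      have h3 : MapsTo (fun u : ℂ => ((c₀, z₀, u) : ℂ × ℂ × ℂ)) univ
          (ball c₀ ε ×ˢ (ball z₀ ε ×ˢ (univ : Set ℂ))) := by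
        intro u _
        exact ⟨hc, hz, mem_univ _⟩
      exact hNF.diff.comp h2 h3
    exact h1.analyticAt univ_mem
  obtain ⟨h, hh, h0, hσ⟩ := factor (r := 2 * ρ) (by positivity) han
    (hNF.size c₀ hc z₀ hz)
  have hlim := lim_change hPD.hq ha hh h0 hσ
  -- the change along the orbit
  set K : ℝ := 2 ^ q with hK
  have hK1 : 1 ≤ K := one_le_pow₀ (by norm_num)
  have hiter : ∀ u : ℂ, u ≠ 0 → ‖u‖ ≤ ρ / K → ∀ i : ℕ, i ≤ q →
      (G d m c₀)^[i] (z₀ + u) - z₀ ≠ 0 ∧ ‖(G d m c₀)^[i] (z₀ + u) - z₀‖ ≤ 2 ^ i * ‖u‖ ∧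
      ‖(s c₀ z₀ ((G d m c₀)^[i] (z₀ + u) - z₀))⁻¹ - (s c₀ z₀ u)⁻¹ + i * b c₀ z₀‖
        ≤ i * (C * K * ‖u‖) := by
    intro u hu0 hu i
    induction i with
    | zero =>
      intro _
      simp [hu0]
    | succ i ih =>
      intro hi
      obtain ⟨i1, i2, i3⟩ := ih (by omega)
      set v := (G d m c₀)^[i] (z₀ + u) - z₀ with hv
      have hu' : 0 ≤ ‖u‖ := norm_nonneg u
      have h2i : (2 : ℝ) ^ i ≤ K := pow_le_pow_right₀ (by norm_num) (by omega)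
      have hvρ : ‖v‖ ≤ ρ := by
        calc ‖v‖ ≤ 2 ^ i * ‖u‖ := i2
          _ ≤ K * (ρ / K) := mul_le_mul h2i hu hu' (by positivity)
          _ = ρ := by field_simp
      obtain ⟨s1, s2, s3⟩ := hNF.step c₀ hc z₀ hz hPD.fix v i1 hvρ
      have hvz : z₀ + v = (G d m c₀)^[i] (z₀ + u) := by rw [hv]; ring
      have hnext : (G d m c₀)^[i + 1] (z₀ + u) = G d m c₀ (z₀ + v) := by
        rw [Function.iterate_succ_apply', hvz]
      rw [hnext]
      refine ⟨sub_ne_zero.2 s2, ?_, ?_⟩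
      · calc ‖G d m c₀ (z₀ + v) - z₀‖ ≤ 2 * ‖v‖ := s1
          _ ≤ 2 * (2 ^ i * ‖u‖) := by linarith
          _ = 2 ^ (i + 1) * ‖u‖ := by ring
      · rw [hLq, one_mul] at s3
        have e1 : (s c₀ z₀ (G d m c₀ (z₀ + v) - z₀))⁻¹ - (s c₀ z₀ u)⁻¹ +
            ((i + 1 : ℕ) : ℂ) * b c₀ z₀ =
            ((s c₀ z₀ (G d m c₀ (z₀ + v) - z₀))⁻¹ - ((s c₀ z₀ v)⁻¹ - b c₀ z₀)) +
              ((s c₀ z₀ v)⁻¹ - (s c₀ z₀ u)⁻¹ + i * b c₀ z₀) := by
          push_cast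
          ring
        rw [e1]
        refine (norm_add_le _ _).trans ?_
        have e2 : C * ‖v‖ ≤ C * K * ‖u‖ := by
          calc C * ‖v‖ ≤ C * (2 ^ i * ‖u‖) := mul_le_mul_of_nonneg_left i2 hC
            _ ≤ C * (K * ‖u‖) :=
                mul_le_mul_of_nonneg_left (mul_le_mul_of_nonneg_right h2i hu') hC
            _ = C * K * ‖u‖ := by ring
        push_cast
        linarith
  have hlim2 : Tendsto (fun u : ℂ => (s c₀ z₀ (u + u ^ (q + 1) * a u))⁻¹ - (s c₀ z₀ u)⁻¹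
      + q * b c₀ z₀) (𝓝[≠] 0) (𝓝 0) := by
    rw [tendsto_zero_iff_norm_tendsto_zero]
    have h5 : ∀ᶠ u in 𝓝[≠] (0 : ℂ), u ≠ 0 := eventually_mem_nhdsWithin
    have h6 : ∀ᶠ u in 𝓝[≠] (0 : ℂ), u ∈ closedBall (0 : ℂ) (ρ / K) :=
      nhdsWithin_le_nhds (closedBall_mem_nhds (0 : ℂ) (by positivity))
    have h7 : ∀ᶠ u in 𝓝[≠] (0 : ℂ), ‖(s c₀ z₀ (u + u ^ (q + 1) * a u))⁻¹ - (s c₀ z₀ u)⁻¹
        + q * b c₀ z₀‖ ≤ q * (C * K * ‖u‖) := by
      filter_upwards [h5, h6, hgerm.filter_mono nhdsWithin_le_nhds] with u g1 g2 g3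
      have g4 := (hiter u g1 (by simpa using g2) q le_rfl).2.2
      rw [g3] at g4
      have g5 : z₀ + u + u ^ (q + 1) * a u - z₀ = u + u ^ (q + 1) * a u := by ring
      rwa [g5] at g4
    have h8 : Tendsto (fun u : ℂ => (q : ℝ) * (C * K * ‖u‖)) (𝓝[≠] 0) (𝓝 0) := by
      have c1 : ContinuousAt (fun u : ℂ => (q : ℝ) * (C * K * ‖u‖)) 0 := by fun_prop
      have c2 := c1.tendsto.mono_left (nhdsWithin_le_nhds (s := {(0 : ℂ)}ᶜ))
      simpa using c2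
    exact squeeze_zero' (Eventually.of_forall fun _ => norm_nonneg _) h7 h8
  have hnb : (𝓝[≠] (0 : ℂ)).NeBot := NormedField.nhdsNE_neBot (0 : ℂ)
  have hlim3 := hlim.add (tendsto_const_nhds (x := (q : ℂ) * b c₀ z₀))
  have huniq := tendsto_nhds_unique hlim3 hlim2
  intro hb
  rw [hb, mul_zero, add_zero] at huniq
  have hq0 : (q : ℂ) ≠ 0 := by
    have := hPD.hq
    exact Nat.cast_ne_zero.2 (by omega)
  rw [div_eq_zero_iff] at huniq
  rcases huniq with h1 | h1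
  · exact (mul_ne_zero hq0 ha0) (neg_eq_zero.1 h1)
  · exact h0 h1

end Pool.Agent.Y331.PC
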