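import Pool.Agent.Y811.PC.Stm

set_option autoImplicit false

namespace Pool.Agent.Y331.PC

open Complex Metric Set Filter Topology Pool.Agent.H712R2 Pool.Agent.H713R2 N62a1eb23
open Pool.Agent.Y811.PC

/-- the algebraic identity of the step -/
theorem step_alg {σ σ' Λ B W : ℂ} (hσ : σ ≠ 0) (hσ' : σ' ≠ 0) (hΛ : Λ ≠ 0)
    (h : σ' = Λ * σ + B * σ ^ 2 + W) :
    σ'⁻¹ - (Λ⁻¹ * σ⁻¹ - B * (Λ⁻¹) ^ 2) =
      (-(Λ⁻¹ * W) + (Λ⁻¹) ^ 2 * B ^ 2 * σ ^ 3 + (Λ⁻¹) ^ 2 * B * σ * W) / (σ * σ') := by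
  rw [eq_div_iff (mul_ne_zero hσ hσ')]
  have h1 : σ'⁻¹ * (σ * σ') = σ := by field_simp
  have h2 : (Λ⁻¹ * σ⁻¹) * (σ * σ') = Λ⁻¹ * σ' := by field_simp
  rw [sub_mul, sub_mul, h1, h2, h]
  have h3 : Λ⁻¹ * Λ = 1 := inv_mul_cancel₀ hΛ
  linear_combination (-σ - Λ⁻¹ * 0 + (Λ⁻¹ * B * σ ^ 2)) * h3

/-- the estimate of the step -/
theorem step_est {q : ℕ} (hq : 1 ≤ q) {u g σ σ' Λ B F : ℂ} {K : ℝ} (hK : 1 ≤ K)
    (hu : u ≠ 0) (hu1 : ‖u‖ ≤ 1) (h : σ' = Λ * σ + B * σ ^ 2 + u ^ (2 * q + 1) * F)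
    (hΛ0 : Λ ≠ 0) (hΛ : ‖Λ⁻¹‖ ≤ K) (hB : ‖B‖ ≤ K) (hF : ‖F‖ ≤ K)
    (h1 : ‖u‖ ^ q / 2 ≤ ‖σ‖) (h2 : ‖σ‖ ≤ 2 * ‖u‖ ^ q) (h3 : ‖g‖ ^ q / 2 ≤ ‖σ'‖)
    (h4 : ‖u‖ / 2 ≤ ‖g‖) :
    ‖σ'⁻¹ - (Λ⁻¹ * σ⁻¹ - B * (Λ⁻¹) ^ 2)‖ ≤ (4 * 2 ^ q * 11 * K ^ 4) * ‖u‖ := by
  have hu0 : 0 < ‖u‖ := norm_pos_iff.2 hu
  have hK0 : 0 < K := by linarith
  have hσ0 : 0 < ‖σ‖ := lt_of_lt_of_le (by positivity) h1
  have hσ'1 : ‖u‖ ^ q / (2 ^ q * 2) ≤ ‖σ'‖ := by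
    refine le_trans ?_ h3
    have h5 : (‖u‖ / 2) ^ q ≤ ‖g‖ ^ q := pow_le_pow_left₀ (by positivity) h4 q
    rw [div_pow] at h5
    rw [← div_div]
    linarith
  have hσ'0 : 0 < ‖σ'‖ := lt_of_lt_of_le (by positivity) hσ'1
  rw [step_alg (norm_pos_iff.1 hσ0) (norm_pos_iff.1 hσ'0) hΛ0 h, norm_div, norm_mul]
  rw [div_le_iff₀ (mul_pos hσ0 hσ'0)]
  have hup : ‖u‖ ^ (3 * q) ≤ ‖u‖ ^ (2 * q + 1) :=
    pow_le_pow_of_le_one hu0.le hu1 (by omega)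
  have hup1 : ‖u‖ ^ q ≤ 1 := pow_le_one₀ hu0.le hu1
  have hs3 : ‖σ‖ ^ 3 ≤ 8 * ‖u‖ ^ (2 * q + 1) := by
    calc ‖σ‖ ^ 3 ≤ (2 * ‖u‖ ^ q) ^ 3 := pow_le_pow_left₀ hσ0.le h2 3
      _ = 8 * ‖u‖ ^ (3 * q) := by rw [mul_pow, ← pow_mul, mul_comm q 3]; norm_num
      _ ≤ 8 * ‖u‖ ^ (2 * q + 1) := by linarith
  have hs1 : ‖σ‖ ≤ 2 := by linarith
  have hW : ‖u ^ (2 * q + 1) * F‖ ≤ K * ‖u‖ ^ (2 * q + 1) := by
    rw [norm_mul, norm_pow, mul_comm K]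
    exact mul_le_mul_of_nonneg_left hF (by positivity)
  have hU0 : 0 ≤ ‖u‖ ^ (2 * q + 1) := by positivity
  have hΛn : 0 ≤ ‖Λ⁻¹‖ := norm_nonneg _
  have t1 : ‖Λ⁻¹ * (u ^ (2 * q + 1) * F)‖ ≤ K ^ 4 * ‖u‖ ^ (2 * q + 1) := by
    rw [norm_mul]
    calc ‖Λ⁻¹‖ * ‖u ^ (2 * q + 1) * F‖ ≤ K * (K * ‖u‖ ^ (2 * q + 1)) :=
          mul_le_mul hΛ hW (norm_nonneg _) hK0.le
      _ = K ^ 2 * ‖u‖ ^ (2 * q + 1) := by ring
      _ ≤ K ^ 4 * ‖u‖ ^ (2 * q + 1) :=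
          mul_le_mul_of_nonneg_right (pow_le_pow_right₀ hK (by norm_num)) hU0
  have t2 : ‖(Λ⁻¹) ^ 2 * B ^ 2 * σ ^ 3‖ ≤ 8 * (K ^ 4 * ‖u‖ ^ (2 * q + 1)) := by
    rw [norm_mul, norm_mul, norm_pow, norm_pow, norm_pow]
    calc ‖Λ⁻¹‖ ^ 2 * ‖B‖ ^ 2 * ‖σ‖ ^ 3 ≤ K ^ 2 * K ^ 2 * (8 * ‖u‖ ^ (2 * q + 1)) := by
          refine mul_le_mul (mul_le_mul ?_ ?_ (by positivity) (by positivity)) hs3
            (by positivity) (by positivity)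
          · exact pow_le_pow_left₀ hΛn hΛ 2
          · exact pow_le_pow_left₀ (norm_nonneg _) hB 2
      _ = 8 * (K ^ 4 * ‖u‖ ^ (2 * q + 1)) := by ring
  have t3 : ‖(Λ⁻¹) ^ 2 * B * σ * (u ^ (2 * q + 1) * F)‖ ≤ 2 * (K ^ 4 * ‖u‖ ^ (2 * q + 1)) := by
    rw [norm_mul, norm_mul, norm_mul, norm_pow]
    calc ‖Λ⁻¹‖ ^ 2 * ‖B‖ * ‖σ‖ * ‖u ^ (2 * q + 1) * F‖
        ≤ K ^ 2 * K * 2 * (K * ‖u‖ ^ (2 * q + 1)) := by
          refine mul_le_mul (mul_le_mul (mul_le_mul ?_ hB (norm_nonneg _) (by positivity)) hs1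
            (norm_nonneg _) (by positivity)) hW (norm_nonneg _) (by positivity)
          exact pow_le_pow_left₀ hΛn hΛ 2
      _ = 2 * (K ^ 4 * ‖u‖ ^ (2 * q + 1)) := by ring
  have t4 : ‖-(Λ⁻¹ * (u ^ (2 * q + 1) * F)) + (Λ⁻¹) ^ 2 * B ^ 2 * σ ^ 3 +
      (Λ⁻¹) ^ 2 * B * σ * (u ^ (2 * q + 1) * F)‖ ≤ 11 * (K ^ 4 * ‖u‖ ^ (2 * q + 1)) := by
    refine (norm_add₃_le).trans ?_
    rw [norm_neg]
    linarith
  refine t4.trans ?_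
  have t5 : ‖u‖ ^ q / 2 * (‖u‖ ^ q / (2 ^ q * 2)) ≤ ‖σ‖ * ‖σ'‖ :=
    mul_le_mul h1 hσ'1 (by positivity) hσ0.le
  calc 11 * (K ^ 4 * ‖u‖ ^ (2 * q + 1))
      = 4 * 2 ^ q * 11 * K ^ 4 * ‖u‖ * (‖u‖ ^ q / 2 * (‖u‖ ^ q / (2 ^ q * 2))) := by
        have h6 : ‖u‖ ^ (2 * q + 1) = ‖u‖ ^ q * ‖u‖ ^ q * ‖u‖ := by
          rw [pow_succ, two_mul, pow_add]
        rw [h6]
        field_simp
        ring
    _ ≤ 4 * 2 ^ q * 11 * K ^ 4 * ‖u‖ * (‖σ‖ * ‖σ'‖) :=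
        mul_le_mul_of_nonneg_left t5 (by positivity)

/-- bound of a polynomial -/
theorem sum_est {M : ℕ} {e : ℕ → ℂ} {K : ℝ} {u : ℂ} (hu : ‖u‖ ≤ 1)
    (he : ∀ j ∈ Finset.range M, ‖e j‖ ≤ K) :
    ‖∑ j ∈ Finset.range M, e j * u ^ j‖ ≤ M * K := by
  refine (norm_sum_le _ _).trans ?_
  have h1 : ∀ j ∈ Finset.range M, ‖e j * u ^ j‖ ≤ K := by
    intro j hj
    rw [norm_mul, norm_pow]
    have h2 : ‖u‖ ^ j ≤ 1 := pow_le_one₀ (norm_nonneg _) hu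
    have h3 := he j hj
    nlinarith [norm_nonneg (e j), pow_nonneg (norm_nonneg u) j]
  refine (Finset.sum_le_sum h1).trans ?_
  rw [Finset.sum_const, Finset.card_range, nsmul_eq_mul]

/-- the first order expansion of the iterate, uniformly in the parameter -/
theorem lin_est (hA : S_ANA) {d m : ℕ} {c₀ z₀ : ℂ} (hmu : ‖mu d m c₀ z₀‖ = 1) :
    ∃ δ : ℝ, 0 < δ ∧ ∀ c ∈ ball c₀ δ, ∀ α ∈ ball z₀ δ, ∀ u : ℂ, ‖u‖ ≤ δ →
      ‖G d m c (α + u) - G d m c α‖ ≤ 2 * ‖u‖ ∧ ‖u‖ / 2 ≤ ‖G d m c (α + u) - G d m c α‖ := by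
  set Φ : ℂ × ℂ → ℂ := fun p => G d m p.1 p.2 with hΦ
  have h1 : HasStrictFDerivAt Φ (fderiv ℂ Φ (c₀, z₀)) (c₀, z₀) :=
    ((hA d m c₀ z₀).1).hasStrictFDerivAt
  have h2 : fderiv ℂ Φ (c₀, z₀) (0, 1) = mu d m c₀ z₀ := by
    have h3 : HasDerivAt (fun z : ℂ => ((c₀, z) : ℂ × ℂ)) ((0, 1) : ℂ × ℂ) z₀ :=
      (hasDerivAt_const z₀ c₀).prodMk (hasDerivAt_id z₀)
    have h4 := h1.hasFDerivAt.comp_hasDerivAt z₀ h3
    have h5 : deriv (Φ ∘ fun z : ℂ => ((c₀, z) : ℂ × ℂ)) z₀ = fderiv ℂ Φ (c₀, z₀) (0, 1) :=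
      h4.deriv
    rw [← h5]
    rfl
  have h6 := h1.isLittleO.def (c := 1 / 4) (by norm_num)
  rw [Metric.eventually_nhds_iff] at h6
  obtain ⟨η, hη, h7⟩ := h6
  refine ⟨η / 2, by positivity, fun c hc α hα u hu => ?_⟩
  have hc' : dist c c₀ < η / 2 := hc
  have hα' : dist α z₀ < η / 2 := hα
  have h8 : dist (((c, α + u), (c, α)) : (ℂ × ℂ) × (ℂ × ℂ)) ((c₀, z₀), (c₀, z₀)) < η := by
    rw [Prod.dist_eq, Prod.dist_eq, Prod.dist_eq]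
    refine max_lt (max_lt ?_ ?_) (max_lt ?_ ?_)
    · linarith
    · show dist (α + u) z₀ < η
      calc dist (α + u) z₀ ≤ dist (α + u) α + dist α z₀ := dist_triangle _ _ _
        _ < η := by
          rw [dist_eq_norm, add_sub_cancel_left]
          linarith
    · linarith
    · show dist α z₀ < η
      linarith
  have h9 := h7 h8
  have h10 : ((c, α + u) : ℂ × ℂ) - (c, α) = (0, u) := by
    rw [Prod.mk_sub_mk]
    simp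
  rw [h10] at h9
  have h11 : (fderiv ℂ Φ (c₀, z₀)) ((0, u) : ℂ × ℂ) = u * mu d m c₀ z₀ := by
    have h12 : ((0, u) : ℂ × ℂ) = u • ((0, 1) : ℂ × ℂ) := by
      rw [Prod.smul_mk]
      simp
    rw [h12, map_smul, h2, smul_eq_mul]
  rw [h11] at h9
  have h13 : ‖((0, u) : ℂ × ℂ)‖ = ‖u‖ := by
    rw [Prod.norm_mk]
    simp
  rw [h13] at h9
  have h14 : ‖u * mu d m c₀ z₀‖ = ‖u‖ := by
    rw [norm_mul, hmu, mul_one]
  set D := G d m c (α + u) - G d m c α with hD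
  have h15 : ‖D - u * mu d m c₀ z₀‖ ≤ 1 / 4 * ‖u‖ := h9
  have hu0 := norm_nonneg u
  constructor
  · have h16 : ‖D‖ ≤ ‖D - u * mu d m c₀ z₀‖ + ‖u * mu d m c₀ z₀‖ := by
      have := norm_add_le (D - u * mu d m c₀ z₀) (u * mu d m c₀ z₀)
      rwa [sub_add_cancel] at this
    rw [h14] at h16
    linarith
  · have h16 : ‖u * mu d m c₀ z₀‖ ≤ ‖D‖ + ‖D - u * mu d m c₀ z₀‖ := by
      have := norm_sub_le D (D - u * mu d m c₀ z₀)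
      rwa [sub_sub_cancel] at this
    rw [h14] at h16
    linarith

theorem norm_mu_of_prim {d m q : ℕ} {c₀ z₀ : ℂ} (h : PD d m q c₀ z₀) : ‖mu d m c₀ z₀‖ = 1 := by
  have h1 := h.mul.pow_eq_one
  exact Complex.norm_eq_one_of_pow_eq_one h1 (by have := h.hq; omega)

theorem t_NF (h : S_NFA) (hA : S_ANA) : S_NF := by
  intro d m q c₀ z₀ hPD
  obtain ⟨ε₀, e, E, B, M, hε₀, he, hE, hB, hid⟩ := h d m q c₀ z₀ hPD
  have hmu1 := norm_mu_of_prim hPD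
  obtain ⟨δ, hδ, hlin⟩ := lin_est hA hmu1
  have hmuc : Continuous (fun p : ℂ × ℂ => mu d m p.1 p.2) := by
    rw [continuous_iff_continuousAt]
    intro p
    exact ((hA d m p.1 p.2).2).continuousAt
  have hnh : ball c₀ ε₀ ×ˢ ball z₀ ε₀ ∈ 𝓝 ((c₀, z₀) : ℂ × ℂ) :=
    prod_mem_nhds (ball_mem_nhds _ hε₀) (ball_mem_nhds _ hε₀)
  -- local bounds
  obtain ⟨K, hK1, hKe⟩ : ∃ K : ℝ, 1 ≤ K ∧ ∀ᶠ p : ℂ × ℂ in 𝓝 (c₀, z₀),
      (∀ j ∈ Finset.range M, ‖e j p‖ ≤ K) ∧ (∀ j ∈ Finset.range M, ‖E j p‖ ≤ K) ∧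
        ‖B p‖ ≤ K := by
    set K : ℝ := 1 + (∑ j ∈ Finset.range M, ‖e j (c₀, z₀)‖) + (∑ j ∈ Finset.range M,
      ‖E j (c₀, z₀)‖) + ‖B (c₀, z₀)‖ with hKdef
    have n1 : 0 ≤ ∑ j ∈ Finset.range M, ‖e j (c₀, z₀)‖ :=
      Finset.sum_nonneg fun _ _ => norm_nonneg _
    have n2 : 0 ≤ ∑ j ∈ Finset.range M, ‖E j (c₀, z₀)‖ :=
      Finset.sum_nonneg fun _ _ => norm_nonneg _
    have n3 := norm_nonneg (B (c₀, z₀))
    refine ⟨K, by rw [hKdef]; linarith, ?_⟩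
    have a1 : ∀ᶠ p : ℂ × ℂ in 𝓝 (c₀, z₀), ∀ j ∈ Finset.range M, ‖e j p‖ ≤ K := by
      rw [Finset.eventually_all]
      intro j hj
      have c1 : ContinuousAt (e j) (c₀, z₀) := (he j).continuousOn.continuousAt hnh
      have c2 : ‖e j (c₀, z₀)‖ < K := by
        have := Finset.single_le_sum (f := fun j => ‖e j (c₀, z₀)‖)
          (fun i _ => norm_nonneg _) hj
        rw [hKdef]
        linarith
      exact (c1.norm.eventually (gt_mem_nhds c2)).mono fun p hp => hp.le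
    have a2 : ∀ᶠ p : ℂ × ℂ in 𝓝 (c₀, z₀), ∀ j ∈ Finset.range M, ‖E j p‖ ≤ K := by
      rw [Finset.eventually_all]
      intro j hj
      have c1 : ContinuousAt (E j) (c₀, z₀) := (hE j).continuousOn.continuousAt hnh
      have c2 : ‖E j (c₀, z₀)‖ < K := by
        have := Finset.single_le_sum (f := fun j => ‖E j (c₀, z₀)‖)
          (fun i _ => norm_nonneg _) hj
        rw [hKdef]
        linarith
      exact (c1.norm.eventually (gt_mem_nhds c2)).mono fun p hp => hp.le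
    have a3 : ∀ᶠ p : ℂ × ℂ in 𝓝 (c₀, z₀), ‖B p‖ ≤ K := by
      have c1 : ContinuousAt B (c₀, z₀) := hB.continuousOn.continuousAt hnh
      have c2 : ‖B (c₀, z₀)‖ < K := by
        rw [hKdef]
        linarith
      exact (c1.norm.eventually (gt_mem_nhds c2)).mono fun p hp => hp.le
    filter_upwards [a1, a2, a3] with p h1 h2 h3 using ⟨h1, h2, h3⟩
  have hmue : ∀ᶠ p : ℂ × ℂ in 𝓝 (c₀, z₀), 1 / 2 < ‖mu d m p.1 p.2‖ := by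
    have c1 : ContinuousAt (fun p : ℂ × ℂ => mu d m p.1 p.2) (c₀, z₀) := hmuc.continuousAt
    have c2 : (1 / 2 : ℝ) < ‖mu d m c₀ z₀‖ := by rw [hmu1]; norm_num
    exact c1.norm.eventually (lt_mem_nhds c2)
  obtain ⟨ε₂, hε₂, hloc⟩ := Metric.eventually_nhds_iff.1 (hKe.and hmue)
  set ε : ℝ := min (min ε₀ ε₂) (min δ (1 / 4)) with hεdef
  have hε : 0 < ε := lt_min (lt_min hε₀ hε₂) (lt_min hδ (by norm_num))
  have e0 : ε ≤ ε₀ := (min_le_left _ _).trans (min_le_left _ _)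
  have e2 : ε ≤ ε₂ := (min_le_left _ _).trans (min_le_right _ _)
  have e3 : ε ≤ δ := (min_le_right _ _).trans (min_le_left _ _)
  have e4 : ε ≤ 1 / 4 := (min_le_right _ _).trans (min_le_right _ _)
  have hbd : ∀ c ∈ ball c₀ ε, ∀ α ∈ ball z₀ ε, ((∀ j ∈ Finset.range M, ‖e j (c, α)‖ ≤ K) ∧
      (∀ j ∈ Finset.range M, ‖E j (c, α)‖ ≤ K) ∧ ‖B (c, α)‖ ≤ K) ∧ 1 / 2 < ‖mu d m c α‖ := by
    intro c hc α hα
    refine @hloc (c, α) ?_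
    rw [Prod.dist_eq]
    exact max_lt (lt_of_lt_of_le hc e2) (lt_of_lt_of_le hα e2)
  set ρ : ℝ := min (min (δ / 2) (1 / 4)) (1 / (4 * (M * K + 1))) with hρdef
  have hMK : 0 ≤ (M : ℝ) * K := by positivity
  have hρ : 0 < ρ := lt_min (lt_min (by positivity) (by norm_num)) (by positivity)
  have r1 : ρ ≤ δ / 2 := (min_le_left _ _).trans (min_le_left _ _)
  have r2 : ρ ≤ 1 / 4 := (min_le_left _ _).trans (min_le_right _ _)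
  have r3 : ρ * (M * K + 1) ≤ 1 / 4 := by
    have h1 : ρ ≤ 1 / (4 * (M * K + 1)) := min_le_right _ _
    rw [le_div_iff₀ (by positivity)] at h1
    linarith
  set s : ℂ → ℂ → ℂ → ℂ := fun c α u =>
    u ^ q * (1 + u * ∑ j ∈ Finset.range M, e j (c, α) * u ^ j) with hs
  set b : ℂ → ℂ → ℂ := fun c α => B (c, α) * ((mu d m c α ^ q)⁻¹) ^ 2 with hb
  have hsize : ∀ c ∈ ball c₀ ε, ∀ α ∈ ball z₀ ε, ∀ u : ℂ, ‖u‖ ≤ 2 * ρ →
      ‖u‖ ^ q / 2 ≤ ‖s c α u‖ ∧ ‖s c α u‖ ≤ 2 * ‖u‖ ^ q := by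
    intro c hc α hα u hu
    have hu1 : ‖u‖ ≤ 1 := by linarith
    have h1 := sum_est (e := fun j => e j (c, α)) hu1 (hbd c hc α hα).1.1
    set S := ∑ j ∈ Finset.range M, e j (c, α) * u ^ j with hS
    have h2 : ‖u * S‖ ≤ 1 / 2 := by
      rw [norm_mul]
      calc ‖u‖ * ‖S‖ ≤ (2 * ρ) * (M * K) :=
            mul_le_mul hu h1 (norm_nonneg _) (by positivity)
        _ ≤ 2 * (ρ * (M * K + 1)) := by nlinarith
        _ ≤ 1 / 2 := by linarith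
    have h3 : ‖s c α u‖ = ‖u‖ ^ q * ‖1 + u * S‖ := by
      rw [hs]
      simp only
      rw [norm_mul, norm_pow]
    have h4 : 1 / 2 ≤ ‖1 + u * S‖ := by
      have := norm_sub_norm_le (1 : ℂ) (-(u * S))
      rw [norm_neg, norm_one, sub_neg_eq_add] at this
      linarith
    have h5 : ‖1 + u * S‖ ≤ 2 := by
      have := norm_add_le (1 : ℂ) (u * S)
      rw [norm_one] at this
      linarith
    rw [h3]
    have h6 : 0 ≤ ‖u‖ ^ q := by positivity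
    constructor <;> nlinarith
  refine ⟨s, b, ρ, ε, 4 * 2 ^ q * 11 * (2 ^ q * (M * K + K)) ^ 4, ?_⟩
  have hq1 := hPD.hq
  refine NF.mk hρ r2 hε e4 (by positivity) ?_ ?_ ?_ hsize ?_
  · rw [hs]
    simp only
    have hmaps : MapsTo (fun p : ℂ × ℂ × ℂ => ((p.1, p.2.1) : ℂ × ℂ))
        (ball c₀ ε ×ˢ (ball z₀ ε ×ˢ (univ : Set ℂ))) (ball c₀ ε₀ ×ˢ ball z₀ ε₀) := by
      rintro ⟨c, α, u⟩ ⟨h1, h2, -⟩
      exact ⟨ball_subset_ball e0 h1, ball_subset_ball e0 h2⟩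
    have hdj : ∀ j, DifferentiableOn ℂ (fun p : ℂ × ℂ × ℂ => e j (p.1, p.2.1))
        (ball c₀ ε ×ˢ (ball z₀ ε ×ˢ (univ : Set ℂ))) := fun j =>
      (he j).comp (by fun_prop) hmaps
    have hsum : DifferentiableOn ℂ (fun p : ℂ × ℂ × ℂ =>
        ∑ j ∈ Finset.range M, e j (p.1, p.2.1) * p.2.2 ^ j)
        (ball c₀ ε ×ˢ (ball z₀ ε ×ˢ (univ : Set ℂ))) :=
      DifferentiableOn.fun_sum fun j _ => (hdj j).mul (by fun_prop)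
    have hu : DifferentiableOn ℂ (fun p : ℂ × ℂ × ℂ => p.2.2)
        (ball c₀ ε ×ˢ (ball z₀ ε ×ˢ (univ : Set ℂ))) := by fun_prop
    exact (hu.pow q).mul ((differentiableOn_const 1).add (hu.mul hsum))
  · rw [hb]
    simp only
    have h1 : ContinuousOn (fun p : ℂ × ℂ => B (p.1, p.2)) (ball c₀ ε ×ˢ ball z₀ ε) :=
      hB.continuousOn.mono (prod_mono (ball_subset_ball e0) (ball_subset_ball e0))
    refine h1.mul (ContinuousOn.pow (ContinuousOn.inv₀ (hmuc.continuousOn.pow q) ?_) 2)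
    rintro ⟨c, α⟩ ⟨hc, hα⟩
    have h2 := (hbd c hc α hα).2
    exact pow_ne_zero _ (norm_pos_iff.1 (by linarith))
  · intro c hc α hα
    have h2 := (hbd c hc α hα).2
    exact norm_pos_iff.1 (by linarith)
  · intro c hc α hα hfix u hu0 hu
    have hc' : c ∈ ball c₀ δ := ball_subset_ball e3 hc
    have hα' : α ∈ ball z₀ δ := ball_subset_ball e3 hα
    obtain ⟨g1, g2⟩ := hlin c hc' α hα' u (by linarith)
    rw [hfix] at g1 g2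
    have hup : 0 < ‖u‖ := norm_pos_iff.2 hu0
    have hg0 : G d m c (α + u) ≠ α := by
      intro h1
      rw [h1, sub_self, norm_zero] at g2
      linarith
    refine ⟨g1, hg0, ?_⟩
    obtain ⟨⟨b1, b2, b3⟩, b4⟩ := hbd c hc α hα
    have hu1 : ‖u‖ ≤ 1 := by linarith
    have hmune : mu d m c α ≠ 0 := norm_pos_iff.1 (by linarith)
    have hkey := hid c (ball_subset_ball e0 hc) α (ball_subset_ball e0 hα) (s c α)
      (fun u => rfl) u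
    rw [hfix] at hkey
    have k1 : ‖(mu d m c α ^ q)⁻¹‖ ≤ 2 ^ q * (M * K + K) := by
      rw [norm_inv, norm_pow]
      have h3 : ‖mu d m c α‖⁻¹ ≤ 2 := by
        rw [inv_le_comm₀ (by linarith) (by norm_num)]
        linarith
      have h4 : (‖mu d m c α‖ ^ q)⁻¹ ≤ 2 ^ q := by
        rw [← inv_pow]
        exact pow_le_pow_left₀ (by positivity) h3 q
      have h5 : (2 : ℝ) ^ q * 1 ≤ 2 ^ q * (M * K + K) :=
        mul_le_mul_of_nonneg_left (by linarith) (by positivity)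
      linarith
    have k0 : M * K + K ≤ 2 ^ q * (M * K + K) := by
      have h5 : 1 ≤ (2 : ℝ) ^ q := one_le_pow₀ (by norm_num)
      have h6 : 0 ≤ M * K + K := by positivity
      nlinarith
    have k2 : ‖B (c, α)‖ ≤ 2 ^ q * (M * K + K) := by linarith
    have k3 : ‖∑ j ∈ Finset.range M, E j (c, α) * u ^ j‖ ≤ 2 ^ q * (M * K + K) := by
      have := sum_est (e := fun j => E j (c, α)) hu1 b2
      linarith
    have k4 := hsize c hc α hα u (by linarith)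
    have k5 := hsize c hc α hα (G d m c (α + u) - α) (by linarith)
    exact step_est hq1 (by linarith) hu0 hu1 hkey (pow_ne_zero _ hmune) k1 k2 k3 k4.1 k4.2 k5.1 g2

end Pool.Agent.Y331.PC
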